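import Pool.Agent.L0h92.LM.Main

set_option autoImplicit false

/-! Polynomials with coefficients algebraic over a field of very well approximable numbers. -/

namespace Pool.Agent.L0h92.LM

open Filter MvPolynomial Pool.Agent.L0h92.NF

theorem alg_reduce {n : ℕ} (L : IntermediateField ℚ ℝ) (P : MvPolynomial (Fin n) ℝ) (hP : P ≠ 0)
    (hc : ∀ e, IsAlgebraic L (P.coeff e)) : ∃ (Q : MvPolynomial (Fin n) L)
      (H : MvPolynomial (Fin n) ℝ), Q ≠ 0 ∧ MvPolynomial.map (algebraMap L ℝ) Q = P * H := by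
  classical
  obtain ⟨P', rfl⟩ : P ∈ Set.range (MvPolynomial.map (algebraMap (algebraicClosure L ℝ) ℝ)) := by
    rw [mem_range_map_iff_coeffs_subset]
    intro c hcc
    obtain ⟨e, -, rfl⟩ := mem_coeffs_iff.1 (Finset.mem_coe.1 hcc)
    exact ⟨⟨_, mem_algebraicClosure_iff.2 (hc e)⟩, rfl⟩
  have hP' : P' ≠ 0 := by
    rintro rfl
    exact hP (map_zero _)
  obtain ⟨g, hg, H', hH'⟩ := MvPolynomial.exists_dvd_map_of_isAlgebraic (R := L) hP'
  refine ⟨g, MvPolynomial.map (algebraMap (algebraicClosure L ℝ) ℝ) H', hg, ?_⟩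
  rw [← map_mul, ← hH', MvPolynomial.map_map, ← IsScalarTower.algebraMap_eq]

theorem bound {n : ℕ} (H : MvPolynomial (Fin n) ℝ) {M : ℝ} (hM : 1 ≤ M) :
    ∃ G : ℝ, 1 ≤ G ∧ ∀ z : Fin n → ℝ, (∀ i, |z i| ≤ M) → |eval z H| ≤ G := by
  refine ⟨1 + ∑ e ∈ H.support, |H.coeff e| * M ^ H.totalDegree, ?_, fun z hz => ?_⟩
  · have : 0 ≤ ∑ e ∈ H.support, |H.coeff e| * M ^ H.totalDegree :=
      Finset.sum_nonneg fun e _ => by positivity
    linarith
  · rw [eval_eq']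
    refine (Finset.abs_sum_le_sum_abs _ _).trans ?_
    have h1 : ∑ e ∈ H.support, |H.coeff e * ∏ i, z i ^ e i| ≤
        ∑ e ∈ H.support, |H.coeff e| * M ^ H.totalDegree := by
      refine Finset.sum_le_sum fun e he => ?_
      rw [abs_mul]
      exact mul_le_mul_of_nonneg_left (mon_le hM hz e (le_totalDegree he)) (abs_nonneg _)
    linarith

/-- a family of points with a measure for integer polynomials -/
theorem main_alg {n : ℕ} {V : ℕ → Set (Fin n → ℝ)} {M : ℝ} (hM : 1 ≤ M)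
    (hVM : ∀ᶠ N in atTop, ∀ z ∈ V N, ∀ i, |z i| ≤ M)
    (hV : ∀ (D : ℕ) (C : ℝ), ∃ B : ℝ, 1 < B ∧ ∃ N0 : ℕ, ∀ N : ℕ, N0 ≤ N → ∀ z ∈ V N,
      ∀ P : MvPolynomial (Fin n) ℤ, P.totalDegree ≤ D →
      (∀ b, |((P.coeff b : ℤ) : ℝ)| ≤ C ^ N) → ∀ y : Fin n → ℝ, (∀ i, |y i| ≤ 1) →
      |aeval y P| ≤ B ^ N * |aeval z P|)
    {T : ℕ → ℝ} (hT : Tendsto T atTop atTop) (L : IntermediateField ℚ ℝ)
    (hL : ∀ y ∈ L, Apr 1 T y) (P : MvPolynomial (Fin n) ℝ) (hP : P ≠ 0)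
    (hc : ∀ e, IsAlgebraic L (P.coeff e)) (K : ℝ) :
    ∃ B : ℝ, 1 < B ∧ ∀ᶠ k in atTop, ∀ N : ℕ, T k ≤ N → N ≤ K * T k → ∀ z ∈ V N,
      (B ^ N)⁻¹ < |eval z P| := by
  obtain ⟨Q, H, hQ, hQH⟩ := alg_reduce L P hP hc
  obtain ⟨B, hB, hmain⟩ := main hM hVM hV hT L hL Q hQ K
  obtain ⟨G, hG, hbound⟩ := bound H hM
  obtain ⟨N2, hN2⟩ := eventually_atTop.1 hVM
  refine ⟨B * G, by nlinarith, ?_⟩
  filter_upwards [hmain, hT.eventually_ge_atTop 1, hT.eventually_ge_atTop (N2 : ℝ)] with k h1 h2 h3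
  intro N hNT hNK z hz
  have hN2' : N2 ≤ N := by exact_mod_cast h3.trans hNT
  have hN1 : 1 ≤ N := by exact_mod_cast h2.trans hNT
  have h4 := h1 N hNT hNK z hz
  have h5 : aeval z Q = eval z P * eval z H := by
    rw [← map_mul, ← hQH, eval_map, aeval_def]
  rw [h5, abs_mul] at h4
  have h6 := hbound z (hN2 N hN2' z hz)
  have h7 : (B ^ N)⁻¹ < |eval z P| * G :=
    lt_of_lt_of_le h4 (mul_le_mul_of_nonneg_left h6 (abs_nonneg _))
  have hG0 : 0 < G := by linarith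
  have h8 : (B ^ N)⁻¹ / G < |eval z P| := by
    rw [div_lt_iff₀ hG0]
    exact h7
  refine lt_of_le_of_lt ?_ h8
  rw [mul_pow, mul_inv, div_eq_mul_inv]
  refine mul_le_mul_of_nonneg_left ?_ (by positivity)
  exact inv_anti₀ hG0 (le_self_pow₀ hG (by omega))

end Pool.Agent.L0h92.LM
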