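import Pool.Agent.L0h92.NF.Basic

set_option autoImplicit false

/-! Polynomials with coefficients which are very well approximable by rational numbers, at points with
a measure for polynomials with integer coefficients. -/

namespace Pool.Agent.L0h92.LM

open Filter MvPolynomial Pool.Agent.L0h92.NF

/-- the value of a monomial -/
noncomputable def mon {n : ℕ} (z : Fin n → ℝ) (e : Fin n →₀ ℕ) : ℝ := ∏ i, z i ^ e i

theorem mon_le {n : ℕ} {z : Fin n → ℝ} {M : ℝ} (hM : 1 ≤ M) (hz : ∀ i, |z i| ≤ M)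
    (e : Fin n →₀ ℕ) {D : ℕ} (he : (e.sum fun _ k => k) ≤ D) : |mon z e| ≤ M ^ D := by
  unfold mon
  rw [Finset.abs_prod]
  calc ∏ i, |z i ^ e i| ≤ ∏ i, M ^ e i := by
        refine Finset.prod_le_prod (fun i _ => abs_nonneg _) fun i _ => ?_
        rw [abs_pow]
        exact pow_le_pow_left₀ (abs_nonneg _) (hz i) _
    _ = M ^ (∑ i, e i) := Finset.prod_pow_eq_pow_sum _ _ _
    _ ≤ M ^ D := by
        refine pow_le_pow_right₀ hM ?_
        rw [Finsupp.sum_fintype _ _ (fun _ => rfl)] at he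
        exact he

/-- the polynomial with integer coefficients `a e` -/
noncomputable def mk {n : ℕ} (s : Finset (Fin n →₀ ℕ)) (a : (Fin n →₀ ℕ) → ℤ) :
    MvPolynomial (Fin n) ℤ := ∑ e ∈ s, monomial e (a e)

theorem mk_aeval {n : ℕ} (s : Finset (Fin n →₀ ℕ)) (a : (Fin n →₀ ℕ) → ℤ) (z : Fin n → ℝ) :
    aeval z (mk s a) = ∑ e ∈ s, (a e : ℝ) * mon z e := by
  unfold mk
  rw [map_sum]
  refine Finset.sum_congr rfl fun e _ => ?_
  rw [aeval_monomial, Finsupp.prod_fintype _ _ (fun i => pow_zero _)]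
  rfl

theorem mk_coeff {n : ℕ} (s : Finset (Fin n →₀ ℕ)) (a : (Fin n →₀ ℕ) → ℤ) {X : ℝ} (hX : 0 ≤ X)
    (h : ∀ e ∈ s, |(a e : ℝ)| ≤ X) (b : Fin n →₀ ℕ) : |(((mk s a).coeff b : ℤ) : ℝ)| ≤ X := by
  classical
  unfold mk
  rw [coeff_sum]
  simp only [coeff_monomial]
  rw [Finset.sum_ite_eq']
  split_ifs with h1
  · exact h b h1
  · simpa using hX

theorem mk_degree {n : ℕ} (s : Finset (Fin n →₀ ℕ)) (a : (Fin n →₀ ℕ) → ℤ) {D : ℕ}
    (h : ∀ e ∈ s, (e.sum fun _ k => k) ≤ D) : (mk s a).totalDegree ≤ D := by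
  unfold mk
  refine totalDegree_finsetSum_le fun e he => ?_
  exact (totalDegree_monomial_le _ _).trans (h e he)

/-- common denominators -/
theorem common {ι : Type} [DecidableEq ι] (s : Finset ι) (r : ι → ℚ) {X : ℝ} (hX : 1 ≤ X)
    (h : ∀ e ∈ s, HtLe X (r e)) : ∃ (Q : ℝ) (a : ι → ℤ), 0 < Q ∧
      ∀ e ∈ s, (a e : ℝ) = Q * r e ∧ |(a e : ℝ)| ≤ X ^ s.card := by
  refine ⟨∏ e ∈ s, ((r e).den : ℝ), fun e => (r e).num * ∏ f ∈ s.erase e, ((r f).den : ℤ),
    Finset.prod_pos fun e _ => by exact_mod_cast (r e).den_pos, fun e he => ⟨?_, ?_⟩⟩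
  · rw [← Finset.mul_prod_erase s _ he]
    push_cast
    have h1 : ((r e).den : ℝ) ≠ 0 := by exact_mod_cast (r e).den_nz
    have h2 : ((r e : ℚ) : ℝ) = ((r e).num : ℝ) / ((r e).den : ℝ) := by
      exact_mod_cast (Rat.num_div_den (r e)).symm
    rw [h2]
    field_simp
  · push_cast
    rw [abs_mul, Finset.abs_prod]
    have hc : s.card = (s.erase e).card + 1 := (Finset.card_erase_add_one he).symm
    rw [hc, pow_succ, mul_comm]
    refine mul_le_mul ?_ (h e he).1 (abs_nonneg _) (by positivity)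
    rw [← Finset.prod_const]
    refine Finset.prod_le_prod (fun _ _ => abs_nonneg _) fun f hf => ?_
    rw [Nat.abs_cast]
    exact (h f (Finset.mem_of_mem_erase hf)).2

end Pool.Agent.L0h92.LM
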