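import Pool.Agent.L0h92.LM.Core

set_option autoImplicit false

/-! Polynomials with coefficients which are very well approximable by rational numbers, at points with
a measure for polynomials with integer coefficients. -/

namespace Pool.Agent.L0h92.LM

open Filter MvPolynomial Pool.Agent.L0h92.NF

theorem exists_point {n : ℕ} {L : IntermediateField ℚ ℝ} (P : MvPolynomial (Fin n) L)
    (hP : P ≠ 0) : ∃ y : Fin n → ℝ, (∀ i, |y i| ≤ 1) ∧ aeval y P ≠ 0 := by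
  by_contra hcon
  push Not at hcon
  apply hP
  refine MvPolynomial.funext_set (fun _ => Set.range fun j : ℕ => ((1 : L) / ((j : L) + 1)))
    (fun _ => ?_) fun x hx => ?_
  · refine Set.infinite_range_of_injective fun a b hab => ?_
    have h1 : (a : L) + 1 = (b : L) + 1 := by
      simpa [one_div, inv_inj] using hab
    have h2 : (a : L) = b := add_right_cancel h1
    exact_mod_cast h2
  · rw [map_zero]
    have h1 : aeval (fun i => (x i : ℝ)) P = 0 := by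
      refine hcon _ fun i => ?_
      obtain ⟨j, hj⟩ := hx i trivial
      rw [← hj]
      push_cast
      rw [abs_of_nonneg (by positivity), div_le_one (by positivity)]
      have : (0 : ℝ) ≤ j := Nat.cast_nonneg _
      linarith
    have h2 : aeval (fun i => (x i : ℝ)) P = ((eval x P : L) : ℝ) := by
      have h3 : (fun i => (x i : ℝ)) = algebraMap L ℝ ∘ x := rfl
      rw [h3, aeval_algebraMap_apply, aeval_eq_eval]
      rfl
    rw [h2] at h1
    exact_mod_cast h1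

theorem aeval_sum {n : ℕ} {L : IntermediateField ℚ ℝ} (P : MvPolynomial (Fin n) L)
    (z : Fin n → ℝ) : aeval z P = ∑ e ∈ P.support, ((P.coeff e : L) : ℝ) * mon z e := by
  rw [aeval_def, eval₂_eq']
  rfl

/-- a family of points with a measure for integer polynomials -/
theorem main {n : ℕ} {V : ℕ → Set (Fin n → ℝ)} {M : ℝ} (hM : 1 ≤ M)
    (hVM : ∀ᶠ N in atTop, ∀ z ∈ V N, ∀ i, |z i| ≤ M)
    (hV : ∀ (D : ℕ) (C : ℝ), ∃ B : ℝ, 1 < B ∧ ∃ N0 : ℕ, ∀ N : ℕ, N0 ≤ N → ∀ z ∈ V N,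
      ∀ P : MvPolynomial (Fin n) ℤ, P.totalDegree ≤ D →
      (∀ b, |((P.coeff b : ℤ) : ℝ)| ≤ C ^ N) → ∀ y : Fin n → ℝ, (∀ i, |y i| ≤ 1) →
      |aeval y P| ≤ B ^ N * |aeval z P|)
    {T : ℕ → ℝ} (hT : Tendsto T atTop atTop) (L : IntermediateField ℚ ℝ)
    (hL : ∀ y ∈ L, Apr 1 T y) (P : MvPolynomial (Fin n) L) (hP : P ≠ 0) (K : ℝ) :
    ∃ B : ℝ, 1 < B ∧ ∀ᶠ k in atTop, ∀ N : ℕ, T k ≤ N → N ≤ K * T k → ∀ z ∈ V N,
      (B ^ N)⁻¹ < |aeval z P| := by
  classical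
  obtain ⟨y, hy, hy0⟩ := exists_point P hP
  obtain ⟨s, hs⟩ : ∃ s, s = P.support := ⟨_, rfl⟩
  obtain ⟨D, hD⟩ : ∃ D, D = P.totalDegree := ⟨_, rfl⟩
  have hsD : ∀ e ∈ s, (e.sum fun _ k => k) ≤ D := by
    intro e he
    rw [hs] at he
    rw [hD]
    exact le_totalDegree he
  have hap : ∀ e, ∃ A : ℝ, ∀ E : ℝ, ∀ᶠ k in atTop, Near (Real.exp (A * T k))
      (Real.exp (-(E * T k ^ (1 : ℝ)))) ((P.coeff e : L) : ℝ) := fun e => hL _ (P.coeff e).2
  choose A hA using hap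
  obtain ⟨A0, hA0⟩ : ∃ A0, A0 = 1 + ∑ e ∈ s, |A e| := ⟨_, rfl⟩
  have hA1 : 1 ≤ A0 := by
    rw [hA0]
    have : 0 ≤ ∑ e ∈ s, |A e| := Finset.sum_nonneg fun i _ => abs_nonneg _
    linarith
  have hAle : ∀ e ∈ s, A e ≤ A0 := by
    intro e he
    have h1 : |A e| ≤ ∑ e ∈ s, |A e| :=
      Finset.single_le_sum (fun j _ => abs_nonneg (A j)) he
    have := le_abs_self (A e)
    rw [hA0]
    linarith
  obtain ⟨m, hm⟩ : ∃ m, m = s.card := ⟨_, rfl⟩
  obtain ⟨B, hB, N0, hmeas⟩ := hV D (Real.exp (A0 * m))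
  obtain ⟨K', hK'⟩ : ∃ K', K' = |K| + 1 := ⟨_, rfl⟩
  have hK1 : 1 ≤ K' := by
    rw [hK']
    have := abs_nonneg K
    linarith
  have hKle : K ≤ K' := by
    rw [hK']
    have := le_abs_self K
    linarith
  have hlB : 0 < Real.log B := Real.log_pos hB
  obtain ⟨E, hE⟩ : ∃ E, E = K' * (Real.log B + 1) := ⟨_, rfl⟩
  have hev : ∀ᶠ k in atTop, ∀ e ∈ s, Near (Real.exp (A e * T k))
      (Real.exp (-(E * T k ^ (1 : ℝ)))) ((P.coeff e : L) : ℝ) :=
    (Finset.eventually_all s).2 fun e _ => hA e E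
  obtain ⟨p0, hp0⟩ : ∃ p0, p0 = |aeval y P| := ⟨_, rfl⟩
  have hp0' : 0 < p0 := by
    rw [hp0]
    exact abs_pos.2 hy0
  obtain ⟨G, hG⟩ : ∃ G : ℝ, G = 2 * m * M ^ D := ⟨_, rfl⟩
  have hMD : 1 ≤ M ^ D := one_le_pow₀ hM
  have hG0 : 0 ≤ G := by
    rw [hG]
    positivity
  -- large N
  have hN1 : ∀ᶠ N : ℕ in atTop, G * Real.exp (-(N : ℝ)) + (1 / 2 : ℝ) ^ N < p0 := by
    have h1 : Tendsto (fun N : ℕ => G * Real.exp (-(N : ℝ)) + (1 / 2 : ℝ) ^ N) atTop
        (nhds (G * 0 + 0)) := by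
      refine Tendsto.add (Tendsto.const_mul _ ?_) ?_
      · exact Real.tendsto_exp_neg_atTop_nhds_zero.comp tendsto_natCast_atTop_atTop
      · exact tendsto_pow_atTop_nhds_zero_of_lt_one (by norm_num) (by norm_num)
    rw [mul_zero, add_zero] at h1
    exact h1.eventually_lt_const hp0'
  obtain ⟨N1, hN1⟩ := eventually_atTop.1 hN1
  obtain ⟨N2, hN2⟩ := eventually_atTop.1 hVM
  refine ⟨2 * B, by linarith, ?_⟩
  filter_upwards [hev, hT.eventually_ge_atTop 1, hT.eventually_ge_atTop (N0 : ℝ),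
    hT.eventually_ge_atTop (N1 : ℝ), hT.eventually_ge_atTop (N2 : ℝ)] with k h1 h2 h3 h4 h5
  intro N hNT hNK z hz
  have hN0' : N0 ≤ N := by exact_mod_cast h3.trans hNT
  have hN1' : N1 ≤ N := by exact_mod_cast h4.trans hNT
  have hN2' : N2 ≤ N := by exact_mod_cast h5.trans hNT
  have hzM := hN2 N hN2' z hz
  have hsmall := hN1 N hN1'
  choose! r hr hre using h1
  obtain ⟨Q, a, hQ, ha⟩ := common s r (X := Real.exp (A0 * T k))
    (Real.one_le_exp (by nlinarith)) fun e he => by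
      refine (hr e he).mono (Real.exp_le_exp.2 ?_)
      exact mul_le_mul_of_nonneg_right (hAle e he) (by linarith)
  obtain ⟨R, hR⟩ : ∃ R : (Fin n → ℝ) → ℝ, ∀ x, R x = ∑ e ∈ s, (r e : ℝ) * mon x e :=
    ⟨_, fun _ => rfl⟩
  have haR : ∀ x, aeval x (mk s a) = Q * R x := by
    intro x
    rw [mk_aeval, hR, Finset.mul_sum]
    refine Finset.sum_congr rfl fun e he => ?_
    rw [(ha e he).1, mul_assoc]
  have hpoly := hmeas N hN0' z hz (mk s a) (mk_degree s a hsD) (mk_coeff s a (by positivity)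
    fun e he => (ha e he).2.trans (by
      rw [← Real.exp_nat_mul, ← Real.exp_nat_mul, ← hm]
      refine Real.exp_le_exp.2 ?_
      have : (0 : ℝ) ≤ m := Nat.cast_nonneg _
      have h6 : 0 ≤ (m : ℝ) * A0 := by positivity
      nlinarith)) y hy
  rw [haR, haR, abs_mul, abs_mul, abs_of_pos hQ] at hpoly
  have hRR : |R y| ≤ B ^ N * |R z| := by
    have h6 : Q * |R y| ≤ Q * (B ^ N * |R z|) := by
      calc Q * |R y| ≤ B ^ N * (Q * |R z|) := hpoly
        _ = _ := by ring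
    exact le_of_mul_le_mul_left h6 hQ
  obtain ⟨ε, hε⟩ : ∃ ε, ε = Real.exp (-(E * T k ^ (1 : ℝ))) := ⟨_, rfl⟩
  have hε0 : 0 < ε := by
    rw [hε]
    exact Real.exp_pos _
  have herr : ∀ x : Fin n → ℝ, ∀ M' : ℝ, 1 ≤ M' → (∀ i, |x i| ≤ M') →
      |aeval x P - R x| ≤ m * (M' ^ D * ε) := by
    intro x M' hM' hx
    rw [aeval_sum, hR, ← hs, ← Finset.sum_sub_distrib]
    refine (Finset.abs_sum_le_sum_abs _ _).trans ?_
    rw [hm, ← nsmul_eq_mul]
    refine Finset.sum_le_card_nsmul _ _ _ fun e he => ?_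
    rw [← sub_mul, abs_mul, mul_comm]
    refine mul_le_mul (mon_le hM' hx e (hsD e he)) ?_ (abs_nonneg _) (by positivity)
    rw [hε]
    exact hre e he
  have e1 := herr y 1 le_rfl hy
  have e2 := herr z M hM hzM
  rw [one_pow, one_mul] at e1
  have hBN : 0 < B ^ N := by positivity
  have hεN : ε ≤ (B ^ N)⁻¹ * Real.exp (-(N : ℝ)) := by
    have h6 : (B ^ N)⁻¹ = Real.exp (-(N * Real.log B)) := by
      rw [Real.exp_neg, Real.exp_nat_mul, Real.exp_log (by linarith)]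
    rw [hε, h6, ← Real.exp_add, Real.rpow_one]
    refine Real.exp_le_exp.2 ?_
    have h7 : (N : ℝ) ≤ K' * T k := hNK.trans (mul_le_mul_of_nonneg_right hKle (by linarith))
    have h8 : (N : ℝ) * (Real.log B + 1) ≤ K' * T k * (Real.log B + 1) :=
      mul_le_mul_of_nonneg_right h7 (by linarith)
    rw [hE]
    linarith
  have hBN1 : (B ^ N)⁻¹ ≤ 1 := inv_le_one_of_one_le₀ (one_le_pow₀ hB.le)
  have hm0 : (0 : ℝ) ≤ m := Nat.cast_nonneg _
  have hen : 0 < Real.exp (-(N : ℝ)) := Real.exp_pos _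
  -- the estimate
  have f1 : p0 - m * ε ≤ |R y| := by
    rw [hp0]
    have := abs_sub_abs_le_abs_sub (aeval y P) (R y)
    linarith
  have f2 : |R z| ≤ |aeval z P| + m * (M ^ D * ε) := by
    have h6 := abs_sub_abs_le_abs_sub (R z) (aeval z P)
    rw [abs_sub_comm] at h6
    linarith
  have f3 : p0 - m * ε ≤ B ^ N * (|aeval z P| + m * (M ^ D * ε)) :=
    f1.trans (hRR.trans (mul_le_mul_of_nonneg_left f2 hBN.le))
  have f4 : B ^ N * ε ≤ Real.exp (-(N : ℝ)) := by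
    calc B ^ N * ε ≤ B ^ N * ((B ^ N)⁻¹ * Real.exp (-(N : ℝ))) :=
          mul_le_mul_of_nonneg_left hεN hBN.le
      _ = _ := by rw [← mul_assoc, mul_inv_cancel₀ hBN.ne', one_mul]
  have f5 : ε ≤ Real.exp (-(N : ℝ)) :=
    hεN.trans (mul_le_of_le_one_left hen.le hBN1)
  have f6 : (m : ℝ) * ε ≤ m * M ^ D * Real.exp (-(N : ℝ)) := by
    calc (m : ℝ) * ε ≤ m * Real.exp (-(N : ℝ)) := mul_le_mul_of_nonneg_left f5 hm0
      _ ≤ m * M ^ D * Real.exp (-(N : ℝ)) :=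
          mul_le_mul_of_nonneg_right (le_mul_of_one_le_right hm0 hMD) hen.le
  have f7 : B ^ N * (m * (M ^ D * ε)) ≤ m * M ^ D * Real.exp (-(N : ℝ)) := by
    calc B ^ N * (m * (M ^ D * ε)) = m * M ^ D * (B ^ N * ε) := by ring
      _ ≤ _ := mul_le_mul_of_nonneg_left f4 (by positivity)
  have f8 : (1 / 2 : ℝ) ^ N < B ^ N * |aeval z P| := by
    have h6 : p0 - m * ε ≤ B ^ N * |aeval z P| + B ^ N * (m * (M ^ D * ε)) := by
      rw [← mul_add]
      exact f3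
    rw [hG] at hsmall
    linarith
  rw [mul_pow, mul_inv, ← one_div, ← one_div_pow]
  calc (1 / 2 : ℝ) ^ N * (B ^ N)⁻¹ < B ^ N * |aeval z P| * (B ^ N)⁻¹ :=
        mul_lt_mul_of_pos_right f8 (inv_pos.2 hBN)
    _ = |aeval z P| := by
        field_simp

end Pool.Agent.L0h92.LM
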